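import Pool.Agent.Helper45.AM.GoalsA
import Pool.Agent.Helper45.AM.GoalsC
import Pool.Agent.Helper15.RA.GoalsH

/-!
# Project AM (MP_cc6379_al), packet AM-C3: (b) for fewer than `n` syllables implies (a) for at most `n` syllables.
-/

set_option autoImplicit false

open LaurentPolynomial Pool.Agent.Helper15.RA Pool.Agent.Helper45.AM

noncomputable section

namespace Pool.Agent.Helper62.AM

theorem low_t {S W H : Type} [Group W] [Ring H] [Algebra ℤ[T;T⁻¹] H] (X : AC S W H) (M : ℕ) (w : W)
    (h : ¬ X.Ge (M + 1) w) : X.Low M (X.sl w) 0 (X.D.t w) := by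
  intro w'
  rw [Module.Basis.repr_self]
  by_cases hw : w = w'
  · subst hw
    rw [Finsupp.single_eq_same]
    exact ⟨DegLE.one le_rfl, fun _ => ⟨h, le_rfl⟩⟩
  · rw [Finsupp.single_eq_of_ne' hw]
    exact ⟨DegLE.zero 0, fun h0 => absurd rfl h0⟩

theorem h_c_3 (hH1 : H_1) (hH2 : H_2) (hAS : A_S) (hB1 : B_1) (hB3 : B_3) (hB5 : B_5) (hC1 : C_1) (hC2 : C_2) :
    C_3 := by
  intro S W H _ _ _ X n hSB M
  obtain ⟨ht1, -⟩ := hH1 S W H X.M X.cs X.L X.D.toHecke0
  obtain ⟨-, -, -, hcw, hcl, hcd, -⟩ := hH2 S W H X.M X.cs X.L X.wt X.D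
  obtain ⟨-, -, -, hcs, -⟩ := hAS S W H X.toBase X.K
  obtain ⟨-, -, hXK, -⟩ := hB1 S W H X
  obtain ⟨hsl0, hslT, -⟩ := hB3 S W H X
  obtain ⟨-, -, hdec, -⟩ := hB5 S W H X
  have key : ∀ N : ℕ, ∀ w, X.cs.length w = N → X.sl w < n + 1 →
      (X.Ge (M + 1) w → X.LamT M (X.sl w) (-1) (X.D.t w)) ∧ X.LamT M (X.sl w) 0 (X.D.t w) := by
    intro N
    induction N using Nat.strong_induction_on with
    | _ N ih =>
    intro w hlen hsl
    have hge : X.Ge (M + 1) w → X.LamT M (X.sl w) (-1) (X.D.t w) := by
      intro hG
      rcases hdec (M + 1) w hG with ⟨hK, ha⟩ | ⟨b, x, g, y, hT, hw, ha⟩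
      · have hs0 : X.sl w = 0 := (hsl0 w).2 hK
        have hs1 : X.sl (1 : W) = 0 := (hsl0 1).2 (one_mem _)
        have hAdm : X.Adm 1 w 1 := by
          refine Or.inr ⟨?_, hK, ?_⟩
          · intro i _
            rw [one_mul, X.cs.length_one, zero_add, X.cs.length_simple]
          · intro i _
            rw [mul_one, X.cs.length_one, zero_add, X.cs.length_simple]
        have hnn : X.nn 1 w 1 = 0 := by
          unfold AC.nn
          rw [if_pos hK, hs1]
        have hBc : X.B 1 w 1 = X.D.c w := by
          unfold AC.B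
          rw [ht1, one_mul, mul_one]
        have h1 : X.LamT M (X.sl w) (-1) (X.D.c w) := by
          rw [← hBc]
          refine AC.LamT.of_idl (AC.B_mem_Idl hAdm (by omega) (by rw [hnn]; exact Nat.zero_le _)) ?_
          exact (hC1 S W H X 1 w 1 hAdm).mono (by omega)
        have hexp : X.D.t w = X.D.c w -
            ∑ y ∈ ((X.D.t.repr (X.D.c w)).erase w).support, X.D.t.repr (X.D.c w) y • X.D.t y := by
          have h2 : X.D.c w = Finsupp.linearCombination ℤ[T;T⁻¹] X.D.t (X.D.t.repr (X.D.c w)) :=
            (X.D.t.linearCombination_repr _).symm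
          have h3 : X.D.t.repr (X.D.c w) = Finsupp.single w 1 + (X.D.t.repr (X.D.c w)).erase w := by
            conv_lhs => rw [← Finsupp.single_add_erase w (X.D.t.repr (X.D.c w)), hcw w]
          have h4 : X.D.c w = X.D.t w + ∑ y ∈ ((X.D.t.repr (X.D.c w)).erase w).support,
              X.D.t.repr (X.D.c w) y • X.D.t y := by
            conv_lhs => rw [h2, h3, map_add, Finsupp.linearCombination_single, one_smul,
              Finsupp.linearCombination_apply, Finsupp.sum]
            congr 1
            refine Finset.sum_congr rfl fun y hy => ?_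
            have hyw : y ≠ w := by
              rintro rfl
              exact (Finsupp.mem_support_iff.1 hy) (Finsupp.erase_same)
            rw [Finsupp.erase_ne hyw]
          rw [eq_sub_iff_add_eq]
          exact h4.symm
        rw [hexp]
        refine h1.sub (AC.LamT.sum fun y hy => ?_)
        have hyw : y ≠ w := by
          rintro rfl
          exact (Finsupp.mem_support_iff.1 hy) (Finsupp.erase_same)
        have hy0 : X.D.t.repr (X.D.c w) y ≠ 0 := by
          have h5 := Finsupp.mem_support_iff.1 hy
          rwa [Finsupp.erase_ne hyw] at h5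
        have hyK : y ∈ par X.cs X.K := hcs w hK y hy0
        have hsy : X.sl y = 0 := (hsl0 y).2 hyK
        have hly : X.cs.length y < N := by
          rcases hcl w y hy0 with h6 | h6
          · exact absurd h6 hyw
          · rw [← hlen]
            exact h6
        have h7 := (ih _ hly y rfl (by rw [hsy]; omega)).2
        exact AC.LamT.smul_le (hcd w y hyw) h7 (by rw [hsy]; exact Nat.zero_le _) (by norm_num)
      · obtain ⟨q, π, hq, hπ, hexp⟩ := hC2 S W H X b x g y hT
        have hslw : X.sl w = X.sl x + 1 + X.sl y := by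
          rw [hw]
          exact hslT b x g y hT
        have hAdm : X.Adm x g y := Or.inl ⟨b, hT.1, hT.2.1, hT.2.2.2⟩
        have hnn : X.nn x g y = X.sl w := by
          unfold AC.nn
          rw [if_neg hT.2.2.1, hslw]
        have h1 : X.LamT M (X.sl w) (-1) (X.B x g y) := by
          refine AC.LamT.of_idl (AC.B_mem_Idl hAdm (by omega) hnn.le) ?_
          exact (hC1 S W H X x g y hAdm).mono (by omega)
        have h2 : X.LamT M (X.sl w) (-1) (q.sum fun u p => p • X.D.t u) := by
          unfold Finsupp.sum
          refine AC.LamT.sum fun u hu => ?_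
          obtain ⟨hu1, hu2, hu3⟩ := hq u hu
          have hlu : X.cs.length u < N := by
            rw [← hlen, hw]
            exact hu2
          have h3 := (ih _ hlu u rfl (by omega)).2
          exact AC.LamT.smul_le hu3 h3 (by omega) (by norm_num)
        have h3 : X.LamT M (X.sl w) (-1) (π.sum fun k p => p • X.B x k y) := by
          unfold Finsupp.sum
          refine AC.LamT.sum fun k hk => ?_
          obtain ⟨hk1, hk2, -⟩ := hπ k hk
          have hAk : X.Adm x k y := Or.inr ⟨(hXK b x).1 hT.1, hk1, (hXK b y).2 hT.2.2.2⟩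
          have hnk : X.nn x k y = X.sl x + X.sl y := by
            unfold AC.nn
            rw [if_pos hk1, add_zero]
          have h4 := hSB M x k y hAk (by omega)
          have h5 := AC.eps_nonneg X M x k y
          exact AC.LamT.smul_le hk2 h4 (by omega) (by omega)
        have h4 : X.D.t w = X.B x g y - (q.sum fun u p => p • X.D.t u) - π.sum fun k p => p • X.B x k y := by
          rw [hexp, hw]
          abel
        rw [h4]
        exact (h1.sub h2).sub h3
    refine ⟨hge, ?_⟩
    by_cases hG : X.Ge (M + 1) w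
    · exact (hge hG).mono le_rfl (by norm_num)
    · exact AC.LamT.of_low (low_t X M w hG)
  intro w hw
  obtain ⟨h1, h2⟩ := key _ w rfl hw
  exact ⟨h2, h1⟩

end Pool.Agent.Helper62.AM
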